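import Pool.Agent.H93.CUBE.LStmts

/-!
# Cube project, block LIMIT, module BCH: base change of limit data
-/

set_option autoImplicit false

open Polynomial Pool.CM

namespace Pool.H93.Cube

section bch

variable {E E1 K : Type} [Field E] [Field E1] [Field K]

private theorem cmapR_cmapR (κ : E →+* E1) (κ' : E1 →+* K) (f : LaurentSeries E) :
    cmapR κ' (cmapR κ f) = cmapR (κ'.comp κ) f := by
  ext k
  simp

private theorem bch_nil {u : Type} [Fintype u] [DecidableEq u] (κ : E →+* E1) {N : Matrix u u E}
    (h : IsNilpotent N) : IsNilpotent (N.map κ) := by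
  have := h.map (κ.mapMatrix : Matrix u u E →+* Matrix u u E1)
  simpa [RingHom.mapMatrix_apply] using this

private theorem bch_cM {a b : Type} (κ : E →+* E1) (X : Matrix a b E) :
    (cM X).map (cmapR κ) = cM (X.map κ) := by
  ext1 i j
  simp only [cM, Matrix.map_apply]
  exact cmapR_C κ _

private theorem bch_nab {a b : Type} (κ : E →+* E1) (X : Matrix a b (LaurentSeries E)) :
    (X.map (cmapR κ)).map nab = (X.map nab).map (cmapR κ) := by
  ext1 i j
  simp only [Matrix.map_apply]
  exact nab_cmapR κ _

end bch

theorem bch : BCHStmt := by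
  intro X X1 E E1 _ _ A A1 κ τ hD κF hκ m _ _ G e u _ _ e' d
  have hG : ∀ M : Matrix m m (RatFunc E),
      (M.map κF).map (ex E1) = (M.map (ex E)).map (cmapR κ) := by
    intro M
    ext1 i j
    simp only [Matrix.map_apply]
    exact hκ _
  have hcD : ∀ (a : A1.J) (f : LaurentSeries E), cmap (A1.D a : E1 →+ E1) (cmapR κ f) =
      cmapR κ (cmap (A.D (τ a) : E →+ E) f) := by
    intro a f
    ext k
    rw [cmap_coeff, cmapR_coeff, cmapR_coeff, cmap_coeff]
    exact hD a _
  have hmD : ∀ (a : A1.J) (Z : Matrix m u (LaurentSeries E)),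
      (Z.map (cmapR κ)).map (cmap (A1.D a : E1 →+ E1)) =
        (Z.map (cmap (A.D (τ a) : E →+ E))).map (cmapR κ) := by
    intro a Z
    ext1 i j
    simp only [Matrix.map_apply]
    exact hcD a _
  have hadd : ∀ {a b : Type} (P Q : Matrix a b (LaurentSeries E)),
      (P + Q).map (cmapR κ) = P.map (cmapR κ) + Q.map (cmapR κ) := by
    intro a b P Q
    ext1 i j
    simp
  have hsub : ∀ {a b : Type} (P Q : Matrix a b (LaurentSeries E)),
      (P - Q).map (cmapR κ) = P.map (cmapR κ) - Q.map (cmapR κ) := by
    intro a b P Q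
    ext1 i j
    simp
  have hneg : ∀ {a b : Type} (P : Matrix a b (LaurentSeries E)),
      (-P).map (cmapR κ) = -(P.map (cmapR κ)) := by
    intro a b P
    ext1 i j
    simp
  have hmul : ∀ {a b c : Type} [Fintype b] (P : Matrix a b (LaurentSeries E))
      (Q : Matrix b c (LaurentSeries E)),
      (P * Q).map (cmapR κ) = P.map (cmapR κ) * Q.map (cmapR κ) := by
    intro a b c _ P Q
    exact Matrix.map_mul
  refine ⟨{ Z := d.Z.map (cmapR κ), Z' := d.Z'.map (cmapR κ), N := d.N.map κ,
            ZZ := ?_, nil := bch_nil κ d.nil, hZ := ?_, hZ' := ?_, compl := ?_, compl' := ?_,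
            G' := fun a => (d.G' (τ a)).map κ, hD := ?_, hD' := ?_, Ze := ?_ }, rfl, rfl, rfl,
            fun _ => rfl⟩
  · rw [← Matrix.transpose_map, ← hmul, d.ZZ, Matrix.map_one _ (map_zero _) (map_one _)]
  · have h := congrArg (fun M => M.map (cmapR κ)) d.hZ
    simp only [hadd, hmul, bch_cM] at h
    simp only [Option.map_none, hG, bch_nab]
    exact h
  · have h := congrArg (fun M => M.map (cmapR κ)) d.hZ'
    simp only [hsub, hneg, hmul, bch_cM] at h
    simp only [Option.map_none, hG, bch_nab]
    simpa only [Matrix.transpose_map] using h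
  · intro K _ κ' q v hv
    have hc : (((G none).map κF).map ((cmapR κ').comp (ex E1))) =
        (G none).map ((cmapR (κ'.comp κ)).comp (ex E)) := by
      ext1 i j
      simp only [Matrix.map_apply, RingHom.comp_apply, hκ, cmapR_cmapR]
    simp only [Option.map_none] at hv
    rw [hc] at hv
    obtain ⟨x, hx⟩ := d.compl K (κ'.comp κ) q v hv
    refine ⟨x, fun a => ?_⟩
    rw [hx a]
    refine Finset.sum_congr rfl fun b _ => ?_
    rw [Matrix.map_apply, cmapR_cmapR]
  · intro K _ κ' q v hv
    have hc : (((G none).map κF).map ((cmapR κ').comp (ex E1))) =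
        (G none).map ((cmapR (κ'.comp κ)).comp (ex E)) := by
      ext1 i j
      simp only [Matrix.map_apply, RingHom.comp_apply, hκ, cmapR_cmapR]
    simp only [Option.map_none] at hv
    rw [hc] at hv
    obtain ⟨x, hx⟩ := d.compl' K (κ'.comp κ) q v hv
    refine ⟨x, fun a => ?_⟩
    rw [hx a]
    refine Finset.sum_congr rfl fun b _ => ?_
    rw [Matrix.map_apply, cmapR_cmapR]
  · intro a
    have h := congrArg (fun M => M.map (cmapR κ)) (d.hD (τ a))
    simp only [hadd, hmul, bch_cM] at h
    simp only [Option.map_some, hG, hmD]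
    exact h
  · intro a
    have h := congrArg (fun M => M.map (cmapR κ)) (d.hD' (τ a))
    simp only [hsub, hneg, hmul, bch_cM] at h
    simp only [Option.map_some, hG, hmD]
    simpa only [Matrix.transpose_map] using h
  · intro x
    rw [Matrix.map_apply, d.Ze x]
    split_ifs
    · exact map_one _
    · exact map_zero _

end Pool.H93.Cube
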