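import Pool.Agent.H93.CUBE.LStmts
import Pool.Agent.H10.CM.All

/-!
# Cube project, block LIMIT, modules CHR and TRG: the gap condition passes to the limit
-/

set_option autoImplicit false

open Polynomial Pool.CM

namespace Pool.H93.Cube

namespace Chr

variable {X : Idx} {E : Type} [Field E]

/-- finitely many coefficients of a matrix of Laurent series are integral almost everywhere -/
theorem ev_int {A : PF X E} (hA : A.Ax) (tcl : TCLStmt) (tfx : TFXStmt) {m u : Type} [Fintype m]
    [Fintype u] (Z : Matrix m u (LaurentSeries E)) (K : ℤ) :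
    X.Ev fun i => ∀ a b, ∀ k < K, (Z a b).coeff k ∈ A.O i := by
  classical
  have h1 : ∀ x : E, X.Ev fun i => x ∈ A.O i := fun x => by
    obtain ⟨d, hd⟩ := tfx X E A hA x
    exact hd.mono fun i hi => (tcl X E A hA i).1 d x hi
  have h2 : ∀ ab : m × u, X.Ev fun i => ∀ k < K, (Z ab.1 ab.2).coeff k ∈ A.O i := by
    rintro ⟨a, b⟩
    obtain ⟨c, hc⟩ := exists_bound (Z a b)
    have h3 := Idx.Ev.allFinset (X := X) (Finset.Ico c K)
      (S := fun k i => (Z a b).coeff k ∈ A.O i) (fun k _ => h1 _)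
    refine h3.mono fun i hi k hk => ?_
    by_cases hck : k < c
    · simp only [hc k hck]
      exact (A.O i).zero_mem
    · exact hi k (Finset.mem_Ico.2 ⟨not_lt.1 hck, hk⟩)
  exact (Idx.Ev.all h2).mono fun i hi a b k hk => hi (a, b) k hk

/-- the main congruence -/
theorem core {A : PF X E} (hA : A.Ax) (hF : EXFStmt) (xt : XTStmt) (xcg : XCGStmt)
    (tcl : TCLStmt) (tfx : TFXStmt) (ext : EXTStmt) {m : Type} [Fintype m] [DecidableEq m]
    (chi : m → RatFunc E) (e : m) {u : Type} [Fintype u] (Z : Matrix m u (LaurentSeries E))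
    (I C1 : ℕ) :
    X.Ev fun i => ∀ Phi : Matrix m m (RatFunc E), (∀ a b, Phi a b ∈ A.ext.t i (C1 * X.p i)) →
      (∀ a b, Phi a b - (if a = e then A.ext.phi i (chi b) else 0) ∈
        pI (A.ext.O i) (X.p i) 1) →
      ∀ a b, ∀ k < (I : ℤ),
        ((Phi.map (ex E) * Z.map (phiL (A.phi i) (X.p i) (X.hp i).ne_zero)) a b).coeff k -
          (if a = e then (phiL (A.phi i) (X.p i) (X.hp i).ne_zero
            (∑ c, ex E (chi c) * Z c b)).coeff k else 0) ∈ pI (A.O i) (X.p i) 1 := by
  classical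
  have hA' : A.ext.Ax := ext X E A hA
  -- a common degree of `chi`
  have hd : ∀ c : m, ∃ d : ℕ, X.Ev fun i => chi c ∈ A.ext.t i d := fun c =>
    tfx X (RatFunc E) A.ext hA' (chi c)
  choose d hd using hd
  set D : ℕ := ∑ c, d c with hD
  have hd' : X.Ev fun i => ∀ c, chi c ∈ A.ext.t i D := by
    refine (Idx.Ev.all hd).mono fun i hi c => ?_
    exact (tcl X (RatFunc E) A.ext hA' i).2.1 (d c) D
      (Finset.single_le_sum (f := d) (fun _ _ => Nat.zero_le _) (Finset.mem_univ c)) (hi c)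
  have hZ := ev_int (X := X) hA tcl tfx Z ((I : ℤ) + (C1 + D : ℕ) + 1)
  refine (hd'.and hZ).mono ?_
  rintro i ⟨hchi, hZi⟩ Phi hPhi hgap a b k hk
  set p := X.p i with hp
  have hp0 : p ≠ 0 := (X.hp i).ne_zero
  have hp1 : 1 ≤ p := (X.hp i).one_le
  set φ := phiL (A.phi i) p hp0 with hφ
  -- the difference
  set f : m → LaurentSeries E := fun c =>
    ex E (Phi a c - (if a = e then A.ext.phi i (chi c) else 0)) with hf
  have ht : ∀ c, Phi a c - (if a = e then A.ext.phi i (chi c) else 0) ∈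
      A.ext.t i ((C1 + D) * p) := by
    intro c
    have T := tcl X (RatFunc E) A.ext hA' i
    have h1 : -(if a = e then A.ext.phi i (chi c) else 0) ∈ A.ext.t i (D * p) := by
      refine T.2.2.2.2.1 _ _ ?_
      split_ifs
      · have := T.2.2.2.2.2.1 D (chi c) (hchi c)
        rw [mul_comm] at this
        exact this
      · exact T.2.2.2.2.2.2.2 _ _ (AddSubgroup.zero_mem _)
    have h2 := T.2.2.1 _ _ _ _ (hPhi a c) h1
    rw [add_mul, sub_eq_add_neg]
    exact h2
  have hf1 : ∀ c j, (f c).coeff j ∈ pI (A.O i) p 1 := fun c j =>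
    (xcg X E A hA i _ _ 1 (ht c)).1 (hgap a c) j
  have hf2 : ∀ c, ∀ j < -(((C1 + D) * p : ℕ) : ℤ), (f c).coeff j = 0 := fun c j hj =>
    (xt X E A hA i _ _ (ht c)).2 j hj
  have hfe : ∀ c, f c = ex E (Phi a c) - (if a = e then φ (ex E (chi c)) else 0) := by
    intro c
    simp only [hf]
    rw [map_sub]
    split_ifs
    · rw [hF X E A i (chi c)]
    · rw [map_zero]
  -- rewrite the goal as a sum
  have hsum : ((Phi.map (ex E) * Z.map φ) a b) -
      (if a = e then φ (∑ c, ex E (chi c) * Z c b) else 0) = ∑ c, f c * φ (Z c b) := by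
    rw [Matrix.mul_apply]
    simp only [Matrix.map_apply, hfe]
    split_ifs with hae
    · rw [map_sum, ← Finset.sum_sub_distrib]
      refine Finset.sum_congr rfl fun c _ => ?_
      rw [map_mul]
      ring
    · simp only [sub_zero]
  have hgoal : ((Phi.map (ex E) * Z.map φ) a b).coeff k -
      (if a = e then (φ (∑ c, ex E (chi c) * Z c b)).coeff k else 0) =
      ∑ c, (f c * φ (Z c b)).coeff k := by
    have h := congrArg (fun g : LaurentSeries E => g.coeff k) hsum
    simp only [HahnSeries.coeff_sub, HahnSeries.coeff_sum] at h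
    rw [← h]
    congr 1
    split_ifs
    · rfl
    · rfl
  rw [hgoal]
  refine sum_mem fun c _ => ?_
  obtain ⟨b0, hb0⟩ := exists_bound (φ (Z c b))
  rw [coeff_mul_Icc (hf2 c) hb0]
  refine sum_mem fun j hj => ?_
  refine pI_mul_right (hf1 c j) ?_
  rw [Finset.mem_Icc] at hj
  simp only [hφ]
  rw [phiL_coeff]
  split_ifs with hdiv
  · refine hA.phi_O i _ (hZi c b _ ?_)
    have h3 : k - j < (I : ℤ) + ((C1 + D) * p : ℕ) := by linarith [hj.1]
    obtain ⟨l, hl⟩ := hdiv
    rw [hl, Int.mul_ediv_cancel_left _ (Int.natCast_ne_zero.2 hp0)]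
    rw [hl] at h3
    push_cast at h3 ⊢
    have hp1' : (1 : ℤ) ≤ p := by exact_mod_cast hp1
    by_contra hc
    push Not at hc
    have hI : (0 : ℤ) ≤ I := Int.natCast_nonneg I
    have h4 : (p : ℤ) * ((I : ℤ) + (C1 + D) + 1) ≤ p * l := mul_le_mul_of_nonneg_left hc (by omega)
    nlinarith
  · exact (A.O i).zero_mem

end Chr

theorem chr (hF : EXFStmt) (xt : XTStmt) (xcg : XCGStmt)
    (tcl : TCLStmt) (tfx : TFXStmt) (ext : EXTStmt) (hTR2 : TR2Stmt) (hHPP : HPPStmt) :
    CHRStmt := by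
  classical
  intro X E _ A hA m _ _ G chi e n P u _ _ e' d b
  obtain ⟨c, hc⟩ := hTR2 X E A hA m (G none) n (hHPP X E A hA m G chi e n P).1 u d.toLD0
  obtain ⟨C, hC⟩ := P.frob (1 + c)
  obtain ⟨C2, h1⟩ := hc 1 C 0
  have h2 := Chr.core (X := X) hA hF xt xcg tcl tfx ext chi e d.Z 0 C
  obtain ⟨a0, -, ha0⟩ := exists_bound_fin (ι := m × u) (fun x => d.Z x.1 x.2)
  rw [mem_Rg]
  intro l hl
  by_contra hne
  have h3 := hA.pf2 _ hne
  obtain ⟨i, hi0, ⟨⟨hi1, hi2⟩, hi3⟩, hi4⟩ :=
    (((hC.and h1).and h2).and h3).exists (a0.natAbs + 1)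
  obtain ⟨Phi, Phi', hPhi⟩ := hi1
  obtain ⟨PhiH, hH1, hH2⟩ := hi2 Phi hPhi.t1 (by
    have := hPhi.h1 none
    exact this)
  have hgap : ∀ a b, Phi a b - (if a = e then A.ext.phi i (chi b) else 0) ∈
      pI (A.ext.O i) (X.p i) 1 := hPhi.gap
  have hk : (X.p i : ℤ) * l < a0 := by
    have h5 : (X.p i : ℤ) * l ≤ X.p i * (-1) :=
      mul_le_mul_of_nonneg_left (by omega) (Int.natCast_nonneg _)
    have h6 : ((a0.natAbs + 1 : ℕ) : ℤ) < X.p i := by exact_mod_cast hi0
    push_cast at h6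
    have h7 : |a0| = (a0.natAbs : ℤ) := Int.abs_eq_natAbs a0
    have h8 := neg_abs_le a0
    omega
  have hk0 : (X.p i : ℤ) * l < ((0 : ℕ) : ℤ) := by
    have : (0 : ℤ) < X.p i := by exact_mod_cast (X.hp i).pos
    have := mul_neg_of_pos_of_neg this hl
    simpa using this
  have h9 := hi3 Phi hPhi.t1 hgap e b _ hk0
  have h10 := hH2 e b _ (by simpa using hk0)
  rw [if_pos rfl, phiL_coeff_mul] at h9
  have h11 : ((d.Z * cM PhiH) e b).coeff ((X.p i : ℤ) * l) = 0 := by
    rw [Matrix.mul_apply, HahnSeries.coeff_sum]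
    refine Finset.sum_eq_zero fun x _ => ?_
    simp only [cM, Matrix.map_apply]
    rw [mul_comm, HahnSeries.C_mul_eq_smul, HahnSeries.coeff_smul, ha0 (e, x) _ hk, smul_zero]
  rw [h11, sub_zero] at h10
  have h12 : A.phi i ((∑ c, ex E (chi c) * d.Z c b).coeff l) ∈ pI (A.O i) (X.p i) 1 := by
    have := sub_mem h10 h9
    simpa using this
  have h13 : (A.phi i ((∑ c, ex E (chi c) * d.Z c b).coeff l))⁻¹ ∈ A.O i := by
    rw [← map_inv₀]
    exact hA.phi_O i _ hi4.2.2
  have h14 : A.phi i ((∑ c, ex E (chi c) * d.Z c b).coeff l) ≠ 0 := by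
    rw [Ne, map_eq_zero]
    exact hne
  exact (dvr_of_Ax hA i).not_mem_of_unit h13 h14 h12

theorem trg (hF : EXFStmt) (xt : XTStmt) (xcg : XCGStmt)
    (tcl : TCLStmt) (tfx : TFXStmt) (ext : EXTStmt) (hCAN : CANStmt) : TRGStmt := by
  classical
  intro X E _ A hA m _ _ G chi e u _ _ e' d hreg
  obtain ⟨I, hI⟩ := hCAN X E A hA m (G none) u d.toLD0
  refine ⟨I, fun C1 => ?_⟩
  have h2 := Chr.core (X := X) hA hF xt xcg tcl tfx ext chi e d.Z I C1
  refine ((hI.and h2).and (Idx.Ev.large I)).mono ?_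
  rintro i ⟨⟨hi1, hi2⟩, hi3⟩ Phi hPhi hgap PhiH hH a b
  have key := hi1 1 u (PhiH - Matrix.of fun a b => if a = e' then A.phi i (d.chi' chi b) else 0)
    ?_ a b
  · simpa using key
  intro a b k hk
  have h9 := hi2 Phi hPhi hgap a b k hk
  have h10 := hH a b k hk
  have h11 : ((d.Z * cM (PhiH - Matrix.of fun a b =>
      if a = e' then A.phi i (d.chi' chi b) else 0)) a b).coeff k =
      ((d.Z * cM PhiH) a b).coeff k - (if a = e then
        (phiL (A.phi i) (X.p i) (X.hp i).ne_zero (∑ c, ex E (chi c) * d.Z c b)).coeff k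
        else 0) := by
    have h12 : (d.Z * cM (PhiH - Matrix.of fun a b =>
        if a = e' then A.phi i (d.chi' chi b) else 0)) a b = (d.Z * cM PhiH) a b -
        d.Z a e' * HahnSeries.C (A.phi i (d.chi' chi b)) := by
      rw [Matrix.mul_apply, Matrix.mul_apply]
      simp only [cM, Matrix.map_apply, Matrix.sub_apply, Matrix.of_apply, map_sub, mul_sub,
        Finset.sum_sub_distrib]
      congr 1
      rw [Finset.sum_eq_single e']
      · rw [if_pos rfl]
      · intro x _ hx
        rw [if_neg hx, map_zero, mul_zero]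
      · intro h
        exact absurd (Finset.mem_univ _) h
    rw [h12, HahnSeries.coeff_sub]
    congr 1
    rw [d.Ze a]
    split_ifs with hae
    · rw [one_mul, phiL_coeff, HahnSeries.C_apply]
      by_cases hk0 : k = 0
      · subst hk0
        rw [HahnSeries.coeff_single_same, if_pos (dvd_zero _), Int.zero_ediv]
        rfl
      · rw [HahnSeries.coeff_single_of_ne hk0]
        symm
        by_cases hdiv : (X.p i : ℤ) ∣ k
        · rw [if_pos hdiv]
          obtain ⟨l, rfl⟩ := hdiv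
          have hp0 : (X.p i : ℤ) ≠ 0 := Int.natCast_ne_zero.2 (X.hp i).ne_zero
          rw [Int.mul_ediv_cancel_left _ hp0]
          have hl : l < 0 := by
            by_contra hc
            push Not at hc
            have hl1 : 1 ≤ l := by
              rcases lt_or_eq_of_le hc with h | h
              · omega
              · exact absurd (by rw [← h, mul_zero]) hk0
            have h13 : (X.p i : ℤ) * 1 ≤ X.p i * l :=
              mul_le_mul_of_nonneg_left hl1 (Int.natCast_nonneg _)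
            have h14 : (I : ℤ) < X.p i := by exact_mod_cast hi3
            omega
          have := hreg b l hl
          have h15 : (∑ c, ex E (chi c) * d.Z c b).coeff l = 0 := this
          rw [h15, map_zero]
        · rw [if_neg hdiv]
    · simp
  rw [h11]
  have h16 := sub_mem h9 h10
  rw [sub_sub_sub_cancel_left] at h16
  exact h16

/-- module CHR -/
theorem CHR_thm (h1 : TR2Stmt) (h2 : HPPStmt) (h3 : EXFStmt) : CHRStmt :=
  chr h3 Pool.CM.All.xt Pool.CM.All.xcg Pool.CM.All.tcl Pool.CM.All.tfx Pool.CM.All.ext h1 h2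

/-- module TRG -/
theorem TRG_thm (h1 : CANStmt) (h2 : EXFStmt) : TRGStmt :=
  trg h2 Pool.CM.All.xt Pool.CM.All.xcg Pool.CM.All.tcl Pool.CM.All.tfx Pool.CM.All.ext h1

end Pool.H93.Cube
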